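import Pool.Agent.W937.FB.TwoOne

/-!
# `n = 1`, and words over one letter
-/

set_option autoImplicit false

namespace Pool.Agent.W937.FB

open Pool.Agent.H344R3.FB

/-- every word over two adjacent letters can be appended -/
theorem one_ext {α : Type*} {m : ℕ} (hm : 1 ≤ m) (u v : List α) (a b : α) (s : List α) :
    (∀ c ∈ s, c = a ∨ c = b) → ∃ z, (u ++ [a, b]) ++ (s ++ z) ∈ Lang 1 m (u ++ [a, b] ++ v) := by
  induction s using List.reverseRecOn with
  | nil =>
    intro _
    refine ⟨v, ?_⟩
    rw [List.nil_append]
    exact Relation.ReflTransGen.refl
  | append_singleton s c ih =>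
    intro h
    obtain ⟨z, hz⟩ := ih (fun c hc => h c (by simp [hc]))
    obtain ⟨m', rfl⟩ : ∃ m', m = m' + 1 := ⟨m - 1, by omega⟩
    have hc : c ∈ [a, b] ++ s := by
      rcases h c (by simp) with rfl | rfl <;> simp
    obtain ⟨s1, s2, hs⟩ := List.append_of_mem hc
    refine ⟨s2 ++ pw (c :: s2) m' ++ z, ?_⟩
    refine Relation.ReflTransGen.tail hz ⟨u ++ s1, c :: s2, z, ?_, ?_⟩
    · rw [pw_one]
      have : (u ++ [a, b]) ++ (s ++ z) = u ++ (([a, b] ++ s) ++ z) := by simp
      rw [this, hs]
      simp
    · rw [show 1 + (m' + 1) = m' + 1 + 1 by omega, pw_succ, pw_succ]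
      have : (u ++ [a, b]) ++ ((s ++ [c]) ++ (s2 ++ pw (c :: s2) m' ++ z)) =
          u ++ (([a, b] ++ s) ++ ([c] ++ (s2 ++ pw (c :: s2) m' ++ z))) := by simp
      rw [this, hs]
      simp

theorem one_not_regular {α : Type*} {m : ℕ} (hm : 2 ≤ m) (u v : List α) {a b : α}
    (hab : a ≠ b) : ¬ (Lang 1 m (u ++ [a, b] ++ v)).IsRegular := by
  refine not_regular (c := 1) (y0 := u ++ [a, b]) (by omega) ?_
  intro K
  set f : Bool → α := fun x => if x then b else a with hf
  have hinj : Function.Injective f := by
    intro x y hxy
    cases x <;> cases y
    · rfl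
    · exact absurd hxy hab
    · exact absurd hxy.symm hab
    · rfl
  obtain ⟨z, hz⟩ := one_ext (m := m) (by omega) u v a b ((pre V0 K).map f) (by
    intro c hc
    obtain ⟨x, -, rfl⟩ := List.mem_map.1 hc
    cases x
    · left; rfl
    · right; rfl)
  refine ⟨(pre V0 K).map f, z, by rw [List.length_map, pre_length], ?_, hz⟩
  exact (good_pre (le_refl 1) V0_gf _ (by omega)).map hinj

theorem all_eq_of_adjacent {α : Type*} (w : List α)
    (h : ∀ (u : List α) (a b : α) (v : List α), w = u ++ [a, b] ++ v → a = b) :
    ∀ a ∈ w, ∀ b ∈ w, a = b := by
  induction w with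
  | nil => intro a ha; simp at ha
  | cons c w ih =>
    have ih' := ih (fun u a b v hw => h (c :: u) a b v (by rw [hw]; simp))
    have hc : ∀ b ∈ w, c = b := by
      intro b hb
      cases w with
      | nil => simp at hb
      | cons d w =>
        have : c = d := h [] c d w (by simp)
        rw [this]
        exact ih' d (by simp) b hb
    intro a ha b hb
    rcases List.mem_cons.1 ha with e1 | ha
    · rcases List.mem_cons.1 hb with e2 | hb
      · rw [e1, e2]
      · rw [e1]; exact hc b hb
    · rcases List.mem_cons.1 hb with e2 | hb
      · rw [e2]; exact (hc a ha).symm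
      · exact ih' a ha b hb

theorem reg_const {α : Type*} (a : α) (S : Set ℕ) (K m : ℕ) (hm : 0 < m)
    (hS : ∀ N, K ≤ N → (N ∈ S ↔ N + m ∈ S)) :
    Language.IsRegular ({v | (∀ c ∈ v, c = a) ∧ v.length ∈ S} : Language α) := by
  apply Language.IsRegular.of_finite_range_leftQuotient
  set T : ℕ → Language α := fun l => {y | (∀ c ∈ y, c = a) ∧ l + y.length ∈ S} with hT
  have hTm : ∀ l, K ≤ l → T l = T (l + m) := by
    intro l hl
    ext y
    have := hS (l + y.length) (by omega)
    show (_ ∧ _) ↔ (_ ∧ _)
    rw [this, show l + y.length + m = l + m + y.length by omega]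
  have hTr : ∀ l, ∃ l' < K + m, T l = T l' := by
    intro l
    induction l using Nat.strong_induction_on with
    | _ l ih =>
      by_cases h : l < K + m
      · exact ⟨l, h, rfl⟩
      · obtain ⟨l', h1, h2⟩ := ih (l - m) (by omega)
        refine ⟨l', h1, ?_⟩
        rw [← h2, hTm (l - m) (by omega)]
        congr 1
        omega
  refine Set.Finite.subset (((Set.finite_Iio (K + m)).image T).union
    (Set.finite_singleton ((∅ : Set (List α)) : Language α))) ?_
  rintro _ ⟨x, rfl⟩
  by_cases hx : ∀ c ∈ x, c = a
  · left
    obtain ⟨l', h1, h2⟩ := hTr x.length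
    refine ⟨l', h1, ?_⟩
    rw [← h2]
    ext y
    show (_ ∧ _) ↔ (_ ∧ _)
    rw [List.length_append]
    constructor
    · rintro ⟨h3, h4⟩
      refine ⟨fun c hc => ?_, h4⟩
      rcases List.mem_append.1 hc with hc | hc
      · exact hx c hc
      · exact h3 c hc
    · rintro ⟨h3, h4⟩
      exact ⟨fun c hc => h3 c (List.mem_append_right _ hc), h4⟩
  · right
    show Language.leftQuotient _ x = ((∅ : Set (List α)) : Language α)
    apply Set.eq_empty_of_forall_notMem
    rintro y ⟨h3, -⟩
    exact hx fun c hc => h3 c (List.mem_append_left _ hc)

theorem lang_const {α : Type*} {n m : ℕ} (hn : 1 ≤ n) {w : List α} {a : α}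
    (hw : ∀ c ∈ w, c = a) : Lang n m w = ({v | (∀ c ∈ v, c = a) ∧
      v.length ∈ {N | ∃ j, N = w.length + m * j ∧ (j = 0 ∨ n ≤ w.length)}} : Language α) := by
  ext v
  constructor
  · intro hv
    have h' : Relation.ReflTransGen (Step n m) w v := hv
    show (∀ c ∈ v, c = a) ∧ ∃ j, v.length = w.length + m * j ∧ (j = 0 ∨ n ≤ w.length)
    clear hv
    induction h' with
    | refl => exact ⟨hw, 0, by simp⟩
    | tail _ hs ih =>
      obtain ⟨h1, j, h2, h3⟩ := ih
      obtain ⟨p, x, q, e1, e2⟩ := hs
      have hx : ∀ c ∈ x, c = a := by
        intro c hc
        apply h1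
        rw [e1]
        obtain ⟨n', rfl⟩ : ∃ n', n = n' + 1 := ⟨n - 1, by omega⟩
        rw [pw_succ]
        simp [hc]
      have hpw : ∀ k, ∀ c ∈ pw x k, c = a := by
        intro k
        induction k with
        | zero => simp
        | succ k ih =>
          intro c hc
          rw [pw_succ] at hc
          rcases List.mem_append.1 hc with hc | hc
          · exact hx c hc
          · exact ih c hc
      refine ⟨?_, j + x.length, ?_, ?_⟩
      · intro c hc
        rw [e2] at hc
        simp only [List.mem_append] at hc
        rcases hc with (hc | hc) | hc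
        · exact h1 c (by rw [e1]; simp [hc])
        · exact hpw _ c hc
        · exact h1 c (by rw [e1]; simp [hc])
      · have e3 := congrArg List.length e1
        have e4 := congrArg List.length e2
        simp only [List.length_append, pw_length] at e3 e4
        rw [e4]
        have : (n + m) * x.length = n * x.length + m * x.length := by ring
        have : m * (j + x.length) = m * j + m * x.length := by ring
        omega
      · rcases Nat.eq_zero_or_pos x.length with h0 | h0
        · rcases h3 with h3 | h3
          · left; omega
          · right; exact h3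
        · right
          rcases h3 with h3 | h3
          · subst h3
            have e3 := congrArg List.length e1
            simp only [List.length_append, pw_length] at e3
            have : n * 1 ≤ n * x.length := Nat.mul_le_mul_left _ h0
            omega
          · exact h3
  · rintro ⟨h1, j, h2, h3⟩
    have hrep : ∀ (v : List α), (∀ c ∈ v, c = a) → v = List.replicate v.length a := by
      intro v hv
      exact List.eq_replicate_iff.2 ⟨rfl, hv⟩
    rw [hrep v h1, h2]
    rcases h3 with h3 | h3
    · subst h3
      rw [Nat.mul_zero, Nat.add_zero, ← hrep w hw]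
      exact Relation.ReflTransGen.refl
    · clear h2
      induction j with
      | zero =>
        rw [Nat.mul_zero, Nat.add_zero, ← hrep w hw]
        exact Relation.ReflTransGen.refl
      | succ j ih =>
        refine Relation.ReflTransGen.tail ih ⟨[], [a], List.replicate (w.length + m * j - n) a,
          ?_, ?_⟩
        · have : ∀ k, pw [a] k = List.replicate k a := by
            intro k
            induction k with
            | zero => simp
            | succ k ih => rw [pw_succ, ih, List.replicate_succ]; simp
          rw [this, List.nil_append, ← List.replicate_add]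
          congr 1
          omega
        · have : ∀ k, pw [a] k = List.replicate k a := by
            intro k
            induction k with
            | zero => simp
            | succ k ih => rw [pw_succ, ih, List.replicate_succ]; simp
          rw [this, List.nil_append, ← List.replicate_add]
          congr 1
          rw [Nat.mul_succ]
          omega

theorem const_regular {α : Type*} {n m : ℕ} (hn : 1 ≤ n) (hm : 1 ≤ m) {w : List α}
    (hw : ∀ a ∈ w, ∀ b ∈ w, a = b) : (Lang n m w).IsRegular := by
  cases w with
  | nil =>
    have : Lang n m ([] : List α) = ({[]} : Set (List α)) := by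
      ext v
      constructor
      · intro hv
        have h' : Relation.ReflTransGen (Step n m) [] v := hv
        clear hv
        show v = []
        induction h' with
        | refl => rfl
        | tail _ hs ih =>
          obtain ⟨p, x, q, e1, e2⟩ := hs
          rw [ih] at e1
          have e3 := congrArg List.length e1
          simp only [List.length_append, pw_length, List.length_nil] at e3
          have hp : p = [] := List.length_eq_zero_iff.1 (by omega)
          have hq : q = [] := List.length_eq_zero_iff.1 (by omega)
          have hx : x = [] := by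
            apply List.length_eq_zero_iff.1
            have : 1 * x.length ≤ n * x.length := Nat.mul_le_mul_right _ hn
            omega
          rw [e2, hp, hq, hx]
          simp
      · rintro rfl
        exact Relation.ReflTransGen.refl
    rw [this]
    apply Language.IsRegular.of_finite_range_leftQuotient
    refine Set.Finite.subset (Set.toFinite {({[]} : Set (List α)), (∅ : Set (List α))}) ?_
    rintro _ ⟨x, rfl⟩
    cases x with
    | nil => left; rfl
    | cons c x =>
      right
      apply Set.eq_empty_of_forall_notMem
      intro y hy
      have : c :: x ++ y = [] := hy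
      simp at this
  | cons a w =>
    rw [lang_const hn (a := a) (fun c hc => hw c hc a (by simp))]
    refine reg_const a _ ((a :: w).length + 1) m (by omega) ?_
    intro N hN
    constructor
    · rintro ⟨j, h1, h2⟩
      refine ⟨j + 1, by rw [h1, Nat.mul_succ]; omega, ?_⟩
      right
      rcases h2 with h2 | h2
      · subst h2; omega
      · exact h2
    · rintro ⟨j, h1, h2⟩
      obtain ⟨j', rfl⟩ : ∃ j', j = j' + 1 := by
        cases j with
        | zero => omega
        | succ j => exact ⟨j, rfl⟩
      refine ⟨j', by rw [Nat.mul_succ] at h1; omega, ?_⟩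
      right
      rcases h2 with h2 | h2
      · omega
      · exact h2

/-- the classification for `n = 1` -/
theorem one_iff {α : Type*} {m : ℕ} (hm : 2 ≤ m) (w : List α) :
    (Lang 1 m w).IsRegular ↔ ∀ a ∈ w, ∀ b ∈ w, a = b := by
  constructor
  · intro h
    apply all_eq_of_adjacent
    intro u a b v hw
    by_contra hab
    rw [hw] at h
    exact one_not_regular hm u v hab h
  · exact const_regular (le_refl 1) (by omega)

end Pool.Agent.W937.FB
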