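import Pool.Agent.W937.FB.Uni

/-!
# Block words as numbers

The letters of a block of length `n` are the bits of a number; `um n g V` is the image of the
infinite word `V` under the uniform morphism given by the two blocks `g false` and `g true`.
-/

set_option autoImplicit false

namespace Pool.Agent.W937.FB

/-- image of `V` under a uniform morphism -/
def um (n : ℕ) (g : Bool → ℕ) (V : ℕ → Bool) : ℕ → Bool :=
  fun i => (g (V (i / n))).testBit (i % n)

/-- concatenation of blocks -/
def cat (n : ℕ) (g : Bool → ℕ) : List Bool → ℕ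
  | [] => 0
  | x :: xs => g x ||| (cat n g xs <<< n)

theorem cat_lt {n : ℕ} {g : Bool → ℕ} (x : Bool) (xs : List Bool) {j : ℕ}
    (hj : j < n) : (cat n g (x :: xs)).testBit j = (g x).testBit j := by
  rw [cat, Nat.testBit_or, Nat.testBit_shiftLeft]
  simp [show ¬ n ≤ j by omega]

theorem cat_ge {n : ℕ} {g : Bool → ℕ} (hg : ∀ x, g x < 2 ^ n) (x : Bool) (xs : List Bool) {j : ℕ}
    (hj : n ≤ j) : (cat n g (x :: xs)).testBit j = (cat n g xs).testBit (j - n) := by
  rw [cat, Nat.testBit_or, Nat.testBit_shiftLeft]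
  have : (g x).testBit j = false :=
    Nat.testBit_lt_two_pow (lt_of_lt_of_le (hg x) (Nat.pow_le_pow_right (by norm_num) hj))
  simp [this, hj]

theorem um_at {n : ℕ} {g : Bool → ℕ} {V : ℕ → Bool} (t : ℕ) {j : ℕ} (hj : j < n) :
    um n g V (n * t + j) = (g (V t)).testBit j := by
  unfold um
  rw [Nat.mul_add_div (by omega), Nat.div_eq_of_lt hj, Nat.mul_add_mod, Nat.mod_eq_of_lt hj,
    Nat.add_zero]

theorem um_two {n : ℕ} {g : Bool → ℕ} (hg : ∀ x, g x < 2 ^ n) {V : ℕ → Bool} (t : ℕ) {j : ℕ}
    (hj : j < 2 * n) :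
    um n g V (n * t + j) = (cat n g [V t, V (t + 1)]).testBit j := by
  rcases Nat.lt_or_ge j n with h | h
  · rw [um_at t h, cat_lt _ _ h]
  · rw [cat_ge hg _ _ h, cat_lt _ _ (by omega), show n * t + j = n * (t + 1) + (j - n) by
      rw [Nat.mul_succ]; omega, um_at (t + 1) (by omega)]

theorem um_three {n : ℕ} {g : Bool → ℕ} (hg : ∀ x, g x < 2 ^ n) {V : ℕ → Bool} (t : ℕ) {j : ℕ}
    (hj : j < 3 * n) :
    um n g V (n * t + j) = (cat n g [V t, V (t + 1), V (t + 2)]).testBit j := by
  rcases Nat.lt_or_ge j n with h | h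
  · rw [um_at t h, cat_lt _ _ h]
  · rw [cat_ge hg _ _ h, show n * t + j = n * (t + 1) + (j - n) by
      rw [Nat.mul_succ]; omega, um_two hg (t + 1) (by omega)]

/-- `orRun X L` has bit `s` iff `X` has one of the bits `s, …, s + L - 1` -/
def orRun (X : ℕ) : ℕ → ℕ
  | 0 => 0
  | L + 1 => orRun X L ||| (X >>> L)

theorem orRun_bit (X L s : ℕ) : (orRun X L).testBit s = true ↔ ∃ k < L, X.testBit (s + k) = true := by
  induction L with
  | zero => simp [orRun]
  | succ L ih =>
    rw [orRun, Nat.testBit_or, Bool.or_eq_true, ih, Nat.testBit_shiftRight]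
    constructor
    · rintro (⟨k, hk, h⟩ | h)
      · exact ⟨k, by omega, h⟩
      · exact ⟨L, by omega, by rwa [Nat.add_comm] at h⟩
    · rintro ⟨k, hk, h⟩
      rcases Nat.lt_or_ge k L with h1 | h1
      · exact Or.inl ⟨k, h1, h⟩
      · right
        rw [show L = k by omega, Nat.add_comm]
        exact h

/-- the differences between `N` and its shift by `p` -/
def dif (N p : ℕ) : ℕ := N ^^^ (N >>> p)

theorem dif_bit (N p i : ℕ) : (dif N p).testBit i = true ↔ N.testBit i ≠ N.testBit (i + p) := by
  rw [dif, Nat.testBit_xor, Nat.testBit_shiftRight, Nat.add_comm p i]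
  cases N.testBit i <;> cases N.testBit (i + p) <;> simp

/-- no period `p < P` has `2 * p` consecutive agreements, in a context of three blocks -/
def runChk (n : ℕ) (g : Bool → ℕ) (P : ℕ) : Bool :=
  [[false, false, true], [false, true, false], [false, true, true], [true, false, false],
    [true, false, true], [true, true, false]].all fun c =>
    (List.range P).all fun p => p == 0 ||
      (orRun (dif (cat n g c) p) (2 * p)) % 2 ^ n == 2 ^ n - 1

theorem ctx_mem {x y z : Bool} (h : ¬ (x = y ∧ y = z)) :
    [x, y, z] ∈ [[false, false, true], [false, true, false], [false, true, true],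
      [true, false, false], [true, false, true], [true, true, false]] := by
  revert h
  cases x <;> cases y <;> cases z <;> simp

theorem runChk_spec {n : ℕ} {g : Bool → ℕ} (hg : ∀ x, g x < 2 ^ n) {P : ℕ}
    (h : runChk n g P = true) (hP : 3 * P ≤ 2 * n + 4) {V : ℕ → Bool}
    (hV : ∀ i, ¬ (V i = V (i + 1) ∧ V (i + 1) = V (i + 2))) (hn : 0 < n) :
    ∀ p, 0 < p → p < P → ∀ i, ∃ k < 2 * p, um n g V (i + k) ≠ um n g V (i + k + p) := by
  intro p hp hpP i
  have hc := ctx_mem (hV (i / n))
  simp only [runChk, List.all_eq_true] at h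
  have h1 := h _ hc p (List.mem_range.2 hpP)
  rw [Bool.or_eq_true] at h1
  rcases h1 with h1 | h1
  · simp at h1; omega
  · rw [beq_iff_eq] at h1
    have hs : i % n < n := Nat.mod_lt _ hn
    have h2 : (orRun (dif (cat n g [V (i / n), V (i / n + 1), V (i / n + 2)]) p)
        (2 * p)).testBit (i % n) = true := by
      have := congrArg (fun m => m.testBit (i % n)) h1
      simp only [Nat.testBit_mod_two_pow, Nat.testBit_two_pow_sub_one, hs, decide_true,
        Bool.true_and] at this
      exact this
    obtain ⟨k, hk, h3⟩ := (orRun_bit _ _ _).1 h2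
    rw [dif_bit] at h3
    refine ⟨k, hk, ?_⟩
    have e0 : i = n * (i / n) + i % n := (Nat.div_add_mod i n).symm
    have e1 : um n g V (i + k) =
        (cat n g [V (i / n), V (i / n + 1), V (i / n + 2)]).testBit (i % n + k) := by
      rw [← um_three hg (i / n) (by omega)]
      congr 1
      omega
    have e2 : um n g V (i + k + p) =
        (cat n g [V (i / n), V (i / n + 1), V (i / n + 2)]).testBit (i % n + k + p) := by
      rw [← um_three hg (i / n) (by omega)]
      congr 1
      omega
    rw [e1, e2]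
    exact h3

theorem exists_bit_ne {a b l : ℕ} (h : (a ^^^ b) % 2 ^ l ≠ 0) :
    ∃ k < l, a.testBit k ≠ b.testBit k := by
  by_contra hcon
  push Not at hcon
  apply h
  apply Nat.eq_of_testBit_eq
  intro k
  rw [Nat.testBit_mod_two_pow, Nat.testBit_xor, Nat.zero_testBit]
  by_cases hk : k < l
  · rw [hcon k hk]; simp
  · simp [hk]

end Pool.Agent.W937.FB
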