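import Pool.Agent.W937.FB.Words
import Pool.Agent.H344R3.FB.TwoAll

/-!
# `n = 2` and every `m ≥ 1`
-/

set_option autoImplicit false

namespace Pool.Agent.W937.FB

open Pool.Agent.H344R3.FB

/-- the prefix of length `N` -/
def pre (V : ℕ → Bool) (N : ℕ) : List Bool := (List.range N).map V

theorem pre_length (V : ℕ → Bool) (N : ℕ) : (pre V N).length = N := by simp [pre]

theorem pre_succ (V : ℕ → Bool) (N : ℕ) : pre V (N + 1) = pre V N ++ [V N] := by
  simp [pre, List.range_succ]

theorem pre_add (V : ℕ → Bool) (a b : ℕ) :
    pre V (a + b) = pre V a ++ (List.range b).map (fun k => V (a + k)) := by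
  induction b with
  | zero => simp
  | succ b ih => rw [← Nat.add_assoc, pre_succ, ih, List.range_succ]; simp

theorem pre_get (V : ℕ → Bool) {N i : ℕ} (h : i < N) : (pre V N)[i]? = some (V i) := by
  simp [pre, h]

theorem ext_cover {m : ℕ} (hm : 0 < m) {V : ℕ → Bool} {N q : ℕ} (hq : 0 < q) (h2 : 2 * q ≤ N)
    (h : ∀ k ≤ q, V (N - 2 * q + k) = V (N - 2 * q + k + q)) :
    Ext 2 m (pre V (N + 1)) (pre V N) := by
  obtain ⟨q', rfl⟩ : ∃ q', q = q' + 1 := ⟨q - 1, by omega⟩
  set a := N - 2 * (q' + 1) with ha
  have e1 : N = a + (q' + 1) + (q' + 1) := by omega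
  set x := (List.range q').map (fun k => V (a + 1 + k)) with hx
  have hseg : (List.range (q' + 1)).map (fun k => V (a + k)) = V a :: x := by
    rw [List.range_succ_eq_map, List.map_cons, List.map_map]
    simp only [Nat.add_zero, hx, List.cons.injEq, true_and]
    apply List.map_congr_left
    intro k _
    simp only [Function.comp]
    congr 1
    omega
  have hseg2 : (List.range (q' + 1)).map (fun k => V (a + (q' + 1) + k)) = V a :: x := by
    rw [← hseg]
    apply List.map_congr_left
    intro k hk
    rw [List.mem_range] at hk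
    rw [h k (by omega)]
    congr 1
    omega
  have hN : pre V N = pre V a ++ ((V a :: x) ++ (V a :: x)) := by
    conv_lhs => rw [e1]
    rw [pre_add, pre_add, hseg, hseg2]
    simp
  have hlast : V N = V a := by
    have h0 := h 0 (by omega)
    have h1 := h (q' + 1) (le_refl _)
    rw [Nat.add_zero] at h0
    rw [e1, h0]
    rw [← h1]
  rw [pre_succ, hN, hlast]
  exact Ext.letter hm _ _ _

theorem good_pre {c : ℕ} (hc : 1 ≤ c) {V : ℕ → Bool} (hV : GF c V) (N : ℕ) {M : ℕ} (hM : 3 ≤ M) :
    Good c M (pre V N) := by
  intro a f b he p hp hper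
  have hlen : a.length + f.length + b.length = N := by
    have := congrArg List.length he
    rw [pre_length] at this
    simp only [List.length_append] at this
    omega
  have hget : ∀ i, i < f.length → f[i]? = some (V (a.length + i)) := by
    intro i hi
    rw [← pre_get V (N := N) (by omega), he, List.append_assoc,
      List.getElem?_append_right (by omega), List.getElem?_append_left (by omega)]
    congr 1
    omega
  have h3 : c * 3 * p ≤ c * M * p := Nat.mul_le_mul_right _ (Nat.mul_le_mul_left _ hM)
  rcases Nat.lt_or_ge f.length p with h | h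
  · have : c * f.length ≤ c * p := Nat.mul_le_mul_left _ h.le
    have : 1 * p ≤ c * p := Nat.mul_le_mul_right _ hc
    nlinarith
  · have h1 := hV p hp a.length (f.length - p) (by
      intro k hk
      have h2 := hper k (by omega)
      rw [hget k (by omega), hget (k + p) (by omega), Option.some.injEq] at h2
      rw [h2]
      congr 1
      omega)
    obtain ⟨E, hE⟩ : ∃ E, f.length = E + p := ⟨f.length - p, by omega⟩
    rw [hE, Nat.add_sub_cancel] at h1
    rw [hE]
    nlinarith

theorem ext_V2 {m : ℕ} (hm : 0 < m) (k : ℕ) : Ext 2 m (pre V2 (5370 + k)) (pre V2 5370) := by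
  induction k with
  | zero => exact Ext.refl _
  | succ k ih =>
    obtain ⟨q, hq, h2, h3⟩ := V2_cov (N := 5370 + k) (by omega)
    exact (ext_cover hm hq h2 h3).trans ih

theorem two_not_regular_ctx {α : Type*} (f : Bool → α) (hf : Function.Injective f) (m : ℕ)
    (hm : 1 ≤ m) (u v : List α) : ¬ (Lang 2 m (u ++ (pre V2 5370).map f ++ v)).IsRegular := by
  refine not_regular (c := 10740) (y0 := u) (by omega) ?_
  intro K
  obtain ⟨z, hz⟩ := ext_V2 (m := m) (by omega) K
  refine ⟨(pre V2 (5370 + K)).map f, z.map f ++ v, by rw [List.length_map, pre_length]; omega,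
    ?_, ?_⟩
  · exact (good_pre (by norm_num) V2_gf _ (by omega)).map hf
  · have h1 := lang_context u v (lang_map f hz)
    simpa using h1

end Pool.Agent.W937.FB
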