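import Mathlib

/-!
# Runs in images of uniform morphisms

`GF c V`: every stretch of `E` consecutive positions on which `V` agrees with its shift by `p`
satisfies `c * E + p ≤ 2 * c * p`; so there are no cubes, with a margin.
-/

set_option autoImplicit false

namespace Pool.Agent.W937.FB

/-- all runs of `V` are uniformly shorter than cubes -/
def GF (c : ℕ) (V : ℕ → Bool) : Prop :=
  ∀ p, 0 < p → ∀ i E, (∀ k < E, V (i + k) = V (i + k + p)) → c * E + p ≤ 2 * c * p

theorem GF.no3 {c : ℕ} {V : ℕ → Bool} (hV : GF c V) (i : ℕ) :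
    ¬ (V i = V (i + 1) ∧ V (i + 1) = V (i + 2)) := by
  rintro ⟨h1, h2⟩
  have := hV 1 one_pos i 2 (by
    intro k hk
    interval_cases k
    · exact h1
    · exact h2)
  omega

theorem GF.uni {n c : ℕ} (hn : 2 ≤ n) (hc : 1 ≤ c) {V V' : ℕ → Bool} (hV : GF c V) {js : ℕ}
    (hjs : js < n) (hM : ∀ t s, V' (n * t + js) = V' (n * s + js) → V t = V s)
    {L P : ℕ} (hLP : L ≤ 2 * P) (hLn : L ≤ 2 * n)
    (hS : ∀ p, ¬ n ∣ p → ∀ i, ∃ k < L, V' (i + k) ≠ V' (i + k + p))
    (hB : ∀ p, 0 < p → p < P → ∀ i, ∃ k < 2 * p, V' (i + k) ≠ V' (i + k + p)) :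
    GF (2 * c * n) V' := by
  intro p hp i E hE
  by_cases hd : n ∣ p
  · obtain ⟨p', rfl⟩ := hd
    have hp' : 0 < p' := Nat.pos_of_mul_pos_left hp
    set e := E / n with he
    set t0 := (i + (n - 1 - js)) / n with ht0
    have h1 : n * t0 ≤ i + (n - 1 - js) := Nat.mul_div_le _ _
    have h2 : i + (n - 1 - js) < n * t0 + n := by
      have := Nat.lt_mul_div_succ (i + (n - 1 - js)) (show 0 < n by omega)
      rw [← ht0] at this
      rw [Nat.mul_succ] at this
      exact this
    have h3 : n * e ≤ E := Nat.mul_div_le _ _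
    have h4 : E < n * e + n := by
      have := Nat.lt_mul_div_succ E (show 0 < n by omega)
      rw [← he, Nat.mul_succ] at this
      exact this
    have h5 := hV p' hp' t0 e (by
      intro k hk
      apply hM
      have h6 : n * k + n ≤ n * e := by
        rw [← Nat.mul_succ]; exact Nat.mul_le_mul_left _ hk
      have h7 := hE (n * t0 + js + n * k - i) (by omega)
      have h8 : i + (n * t0 + js + n * k - i) = n * (t0 + k) + js := by
        rw [Nat.mul_add]; omega
      rw [h8] at h7
      rw [h7]
      congr 1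
      ring)
    rcases Nat.lt_or_ge p' c with hlt | hge
    · have h6 : e < 2 * p' := by
        by_contra h
        have : c * (2 * p') ≤ c * e := Nat.mul_le_mul_left _ (not_lt.1 h)
        have : c * (2 * p') = 2 * c * p' := by ring
        omega
      have h7 : E + 1 ≤ 2 * (n * p') := by
        have : n * e + n ≤ n * (2 * p') := by
          rw [← Nat.mul_succ]; exact Nat.mul_le_mul_left _ h6
        have : n * (2 * p') = 2 * (n * p') := by ring
        omega
      have h8 : n * p' ≤ 2 * c * n := by nlinarith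
      calc 2 * c * n * E + n * p' ≤ 2 * c * n * E + 2 * c * n := by omega
        _ = 2 * c * n * (E + 1) := by ring
        _ ≤ 2 * c * n * (2 * (n * p')) := Nat.mul_le_mul_left _ h7
        _ = 2 * (2 * c * n) * (n * p') := by ring
    · have h9 : 2 * c * n * E + 2 * c * n ≤ 2 * c * n * (n * e + n) := by
        rw [← Nat.mul_succ]; exact Nat.mul_le_mul_left _ h4
      have h10 : 2 * c * n * (n * e + n) = 2 * n * n * (c * e) + 2 * c * n * n := by ring
      have h11 : 2 * n * n * (c * e + p') ≤ 2 * n * n * (2 * c * p') := Nat.mul_le_mul_left _ h5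
      have h12 : 2 * n * n * (c * e + p') = 2 * n * n * (c * e) + 2 * n * n * p' := by ring
      have h13 : 2 * (2 * c * n) * (n * p') = 2 * n * n * (2 * c * p') := by ring
      rw [h13]
      -- need 2 c n n - 2 c n + n p' ≤ 2 n n p'
      have h14 : 2 * c * n * n + n * p' ≤ 2 * n * n * p' + 2 * c * n := by
        obtain ⟨k, rfl⟩ : ∃ k, n = k + 2 := ⟨n - 2, by omega⟩
        obtain ⟨d, rfl⟩ : ∃ d, p' = c + d := ⟨p' - c, by omega⟩
        nlinarith [Nat.zero_le (k * d), Nat.zero_le (k * k * d), Nat.zero_le (k * c)]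
      omega
  · have hEL : E < L := by
      by_contra h
      obtain ⟨k, hk, hne⟩ := hS p hd i
      exact hne (hE k (by omega))
    have h1 : E + 1 ≤ 2 * p := by
      rcases Nat.lt_or_ge p P with h | h
      · obtain ⟨k, hk, hne⟩ := hB p hp h i
        by_contra hcon
        exact hne (hE k (by omega))
      · omega
    rcases Nat.lt_or_ge (2 * c * n) p with h | h
    · have h2 : L ≤ 2 * c * n := by nlinarith
      have h3 : 2 * c * n * E + 2 * c * n ≤ 2 * c * n * (2 * c * n) := by
        rw [← Nat.mul_succ]; exact Nat.mul_le_mul_left _ (by omega)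
      have h4 : 2 * c * n * (2 * c * n) ≤ 2 * c * n * p := Nat.mul_le_mul_left _ (by omega)
      have h5 : 1 * p ≤ 2 * c * n * p := Nat.mul_le_mul_right _ (by nlinarith)
      have h6 : 2 * (2 * c * n) * p = 2 * c * n * p + 2 * c * n * p := by ring
      omega
    · calc 2 * c * n * E + p ≤ 2 * c * n * E + 2 * c * n := by omega
        _ = 2 * c * n * (E + 1) := by ring
        _ ≤ 2 * c * n * (2 * p) := Nat.mul_le_mul_left _ h1
        _ = 2 * (2 * c * n) * p := by ring

end Pool.Agent.W937.FB
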