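import Pool.Agent.W937.FB.Bits
import Pool.Agent.Helper131.Tern

/-!
# A cube-free word in which every prefix is predicted by a square

`V0` is the Thue-Morse word, `V1` its image under a `179`-uniform morphism, in which every long
prefix ends with a square, `V2` the image of `V1` under a `15`-uniform morphism, in which every
long prefix ends with a factor `x x a`, `a` the first letter of `x`.
-/

set_option autoImplicit false

namespace Pool.Agent.W937.FB

open Pool.Agent.Helper131.Tern (tm tm_overlap_free)

/-- the blocks of length `179` -/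
def g1 : Bool → ℕ
  | false => 229406540770252725724181094483897882613753023149270310
  | true => 229406540770252725720205756441364653162086135042303270

/-- the blocks of length `15` -/
def g2 : Bool → ℕ
  | false => 5721
  | true => 22105

/-- the Thue-Morse word -/
def V0 : ℕ → Bool := tm
/-- the first image -/
def V1 : ℕ → Bool := um 179 g1 V0
/-- the second image -/
def V2 : ℕ → Bool := um 15 g2 V1

theorem g1_lt : ∀ x, g1 x < 2 ^ 179 := by
  intro x; cases x <;> decide +kernel

theorem g2_lt : ∀ x, g2 x < 2 ^ 15 := by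
  intro x; cases x <;> decide +kernel

theorem V0_gf : GF 1 V0 := by
  intro p hp i E hE
  by_contra h
  apply tm_overlap_free p hp i
  intro k hk
  have := hE k (by omega)
  rw [show i + p + k = i + k + p by omega]
  exact this

/-- the segments `[24, 50)` and `[76, 149)` of the blocks of `g1` occur only where they should -/
def syncChk : Bool :=
  [false, true].all fun x => [false, true].all fun y => [false, true].all fun z =>
    [(24, 26), (76, 73)].all fun o => (List.range 179).all fun r => r == o.1 ||
      ((g1 x >>> o.1) ^^^ (cat 179 g1 [y, z] >>> r)) % 2 ^ o.2 != 0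

theorem syncChk_true : syncChk = true := by decide +kernel

theorem run1_true : runChk 179 g1 76 = true := by decide +kernel

theorem run2_true : runChk 15 g2 8 = true := by decide +kernel

theorem mem_bool (x : Bool) : x ∈ [false, true] := by cases x <;> simp

theorem sync_at {o l : ℕ} (hol : (o, l) = (24, 26) ∨ (o, l) = (76, 73)) {p : ℕ}
    (hp : ¬ 179 ∣ p) (t : ℕ) :
    ∃ k < l, V1 (179 * t + o + k) ≠ V1 (179 * t + o + k + p) := by
  have ho : o + l ≤ 179 ∧ (o, l) ∈ [(24, 26), (76, 73)] := by
    rcases hol with h | h <;> rw [h] <;> simp only [Prod.mk.injEq] at h <;>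
      obtain ⟨rfl, rfl⟩ := h <;> simp
  set q := 179 * t + o + p with hq
  have hr : q % 179 < 179 := Nat.mod_lt _ (by norm_num)
  have hro : q % 179 ≠ o := by omega
  have h := syncChk_true
  simp only [syncChk, List.all_eq_true] at h
  have h1 := h _ (mem_bool (V0 t)) _ (mem_bool (V0 (q / 179))) _ (mem_bool (V0 (q / 179 + 1)))
    _ ho.2 _ (List.mem_range.2 hr)
  rw [Bool.or_eq_true] at h1
  rcases h1 with h1 | h1
  · rw [beq_iff_eq] at h1; exact absurd h1 hro
  · rw [bne_iff_ne] at h1
    obtain ⟨k, hk, h2⟩ := exists_bit_ne h1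
    refine ⟨k, hk, ?_⟩
    rw [Nat.testBit_shiftRight, Nat.testBit_shiftRight] at h2
    have e1 : V1 (179 * t + o + k) = (g1 (V0 t)).testBit (o + k) := by
      rw [Nat.add_assoc]; exact um_at t (by omega)
    have e2 : V1 (179 * t + o + k + p) =
        (cat 179 g1 [V0 (q / 179), V0 (q / 179 + 1)]).testBit (q % 179 + k) := by
      rw [← um_two g1_lt (q / 179) (by omega)]
      show V1 _ = V1 _
      congr 1
      omega
    rw [e1, e2]
    exact h2

theorem V1_gf : GF 358 V1 := by
  refine GF.uni (n := 179) (c := 1) (js := 66) (L := 152) (P := 76) (by norm_num) (by norm_num)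
    V0_gf (by norm_num) ?_ (by norm_num) (by norm_num) ?_ ?_
  · intro t s h
    have e : ∀ t, V1 (179 * t + 66) = (g1 (V0 t)).testBit 66 := fun t => um_at t (by norm_num)
    rw [e, e] at h
    revert h
    have h0 : (g1 false).testBit 66 = !(g1 true).testBit 66 := by decide +kernel
    cases V0 t <;> cases V0 s <;> simp [h0]
  · intro p hp i
    have hi : i = 179 * (i / 179) + i % 179 := (Nat.div_add_mod i 179).symm
    have hlt : i % 179 < 179 := Nat.mod_lt _ (by norm_num)
    rcases Nat.lt_or_ge 76 (i % 179) with h | h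
    · obtain ⟨k, hk, h1⟩ := sync_at (o := 24) (l := 26) (Or.inl rfl) hp (i / 179 + 1)
      refine ⟨179 * (i / 179 + 1) + 24 + k - i, by omega, ?_⟩
      rw [show i + (179 * (i / 179 + 1) + 24 + k - i) = 179 * (i / 179 + 1) + 24 + k by omega]
      exact h1
    · rcases Nat.lt_or_ge 24 (i % 179) with h' | h'
      · obtain ⟨k, hk, h1⟩ := sync_at (o := 76) (l := 73) (Or.inr rfl) hp (i / 179)
        refine ⟨179 * (i / 179) + 76 + k - i, by omega, ?_⟩
        rw [show i + (179 * (i / 179) + 76 + k - i) = 179 * (i / 179) + 76 + k by omega]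
        exact h1
      · obtain ⟨k, hk, h1⟩ := sync_at (o := 24) (l := 26) (Or.inl rfl) hp (i / 179)
        refine ⟨179 * (i / 179) + 24 + k - i, by omega, ?_⟩
        rw [show i + (179 * (i / 179) + 24 + k - i) = 179 * (i / 179) + 24 + k by omega]
        exact h1
  · exact runChk_spec g1_lt run1_true (by norm_num) V0_gf.no3 (by norm_num)

theorem res2 : ∀ r < 15, 0 < r → ∃ j < 14, (j + r) % 15 ≠ 14 ∧
    ∀ x y, (g2 x).testBit j ≠ (g2 y).testBit ((j + r) % 15) := by decide +kernel

theorem V2_gf : GF 10740 V2 := by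
  refine GF.uni (n := 15) (c := 358) (js := 14) (L := 15) (P := 8) (by norm_num) (by norm_num)
    V1_gf (by norm_num) ?_ (by norm_num) (by norm_num) ?_ ?_
  · intro t s h
    have e : ∀ t, V2 (15 * t + 14) = (g2 (V1 t)).testBit 14 := fun t => um_at t (by norm_num)
    rw [e, e] at h
    revert h
    have h0 : (g2 false).testBit 14 = !(g2 true).testBit 14 := by decide +kernel
    cases V1 t <;> cases V1 s <;> simp [h0]
  · intro p hp i
    obtain ⟨j, hj, h1, h2⟩ := res2 (p % 15) (Nat.mod_lt _ (by norm_num))
      (Nat.pos_of_ne_zero fun h => hp (Nat.dvd_of_mod_eq_zero h))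
    refine ⟨(j + 15 - i % 15) % 15, Nat.mod_lt _ (by norm_num), ?_⟩
    set k := (j + 15 - i % 15) % 15 with hk
    have hlt : i % 15 < 15 := Nat.mod_lt _ (by norm_num)
    have e1 : (i + k) % 15 = j := by omega
    have e2 : (i + k + p) % 15 = (j + p % 15) % 15 := by omega
    show (g2 _).testBit _ ≠ (g2 _).testBit _
    rw [e1, e2]
    exact h2 _ _
  · exact runChk_spec g2_lt run2_true (by norm_num) V1_gf.no3 (by norm_num)

/-- in every context of two blocks the second block is covered by squares -/
def covChk : Bool :=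
  [false, true].all fun x => [false, true].all fun y => (List.range 179).all fun j =>
    [1, 2, 3, 4, 5, 7, 9, 12, 19, 21, 28].any fun p =>
      !(orRun (dif (cat 179 g1 [x, y]) p) p).testBit (179 + j + 1 - 2 * p)

theorem covChk_true : covChk = true := by decide +kernel

/-- every prefix of `V1` of length at least `358` ends with a square -/
theorem V1_sq {t : ℕ} (ht : 358 ≤ t) :
    ∃ p, 0 < p ∧ 2 * p ≤ t ∧ ∀ k < p, V1 (t - 2 * p + k) = V1 (t - 2 * p + k + p) := by
  set s := (t - 1) / 179 with hs
  have e0 : t - 1 = 179 * s + (t - 1) % 179 := (Nat.div_add_mod _ _).symm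
  have hlt : (t - 1) % 179 < 179 := Nat.mod_lt _ (by norm_num)
  set j := (t - 1) % 179 with hj
  have hs1 : 1 ≤ s := by omega
  have h := covChk_true
  simp only [covChk, List.all_eq_true, List.any_eq_true] at h
  obtain ⟨p, hp, h1⟩ := h _ (mem_bool (V0 (s - 1))) _ (mem_bool (V0 s)) j (List.mem_range.2 hlt)
  have hp' : 0 < p ∧ p ≤ 28 := by
    simp only [List.mem_cons, List.not_mem_nil, or_false] at hp
    omega
  refine ⟨p, hp'.1, by omega, ?_⟩
  intro k hk
  rw [Bool.not_eq_true'] at h1
  by_contra hne
  rw [← Bool.not_eq_true] at h1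
  apply h1
  rw [orRun_bit]
  refine ⟨k, hk, ?_⟩
  rw [dif_bit]
  have e1 : V1 (t - 2 * p + k) =
      (cat 179 g1 [V0 (s - 1), V0 s]).testBit (179 + j + 1 - 2 * p + k) := by
    have := um_two g1_lt (V := V0) (s - 1) (j := 179 + j + 1 - 2 * p + k) (by omega)
    rw [show s - 1 + 1 = s by omega] at this
    rw [← this]
    show V1 _ = V1 _
    congr 1
    omega
  have e2 : V1 (t - 2 * p + k + p) =
      (cat 179 g1 [V0 (s - 1), V0 s]).testBit (179 + j + 1 - 2 * p + k + p) := by
    have := um_two g1_lt (V := V0) (s - 1) (j := 179 + j + 1 - 2 * p + k + p) (by omega)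
    rw [show s - 1 + 1 = s by omega] at this
    rw [← this]
    show V1 _ = V1 _
    congr 1
    omega
  rw [← e1, ← e2]
  exact hne

/-- the last letter of a block of `g2` is predicted, in every context of three blocks -/
def lastChk : Bool :=
  [[false, false, true], [false, true, false], [false, true, true], [true, false, false],
    [true, false, true], [true, true, false]].all fun c =>
    [2, 6].any fun p => !(orRun (dif (cat 15 g2 c) p) (p + 1)).testBit (44 - 2 * p)

theorem lastChk_true : lastChk = true := by decide +kernel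

theorem fix2 : ∀ j < 14, ∀ x y, (g2 x).testBit j = (g2 y).testBit j := by decide +kernel

/-- every prefix of `V2` of length at least `5370` ends with a square that predicts the next
letter -/
theorem V2_cov {N : ℕ} (hN : 5370 ≤ N) :
    ∃ q, 0 < q ∧ 2 * q ≤ N ∧ ∀ k ≤ q, V2 (N - 2 * q + k) = V2 (N - 2 * q + k + q) := by
  set t := N / 15 with ht
  have e0 : N = 15 * t + N % 15 := (Nat.div_add_mod N 15).symm
  have hlt : N % 15 < 15 := Nat.mod_lt _ (by norm_num)
  rcases Nat.lt_or_ge (N % 15) 14 with h | h
  · obtain ⟨p, hp, h2, h3⟩ := V1_sq (t := t) (by omega)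
    refine ⟨15 * p, by omega, by omega, ?_⟩
    intro k hk
    set i := N - 2 * (15 * p) + k with hi
    have e1 : (i + 15 * p) % 15 = i % 15 := by omega
    have e2 : (i + 15 * p) / 15 = i / 15 + p := by omega
    show (g2 (V1 (i / 15))).testBit (i % 15) = (g2 (V1 ((i + 15 * p) / 15))).testBit ((i + 15 * p) % 15)
    rw [e1, e2]
    rcases Nat.lt_or_ge (i % 15) 14 with h' | h'
    · exact fix2 _ h' _ _
    · have h4 := h3 (i / 15 - (t - 2 * p)) (by omega)
      rw [show t - 2 * p + (i / 15 - (t - 2 * p)) = i / 15 by omega] at h4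
      rw [h4]
  · have h4 := V1_gf.no3 (t - 2)
    have h5 := ctx_mem h4
    have h6 := lastChk_true
    simp only [lastChk, List.all_eq_true] at h6
    have h7 := h6 _ h5
    rw [List.any_eq_true] at h7
    obtain ⟨p, hp, h8⟩ := h7
    have hp' : 0 < p ∧ p ≤ 6 := by
      simp only [List.mem_cons, List.not_mem_nil, or_false] at hp
      omega
    refine ⟨p, hp'.1, by omega, ?_⟩
    intro k hk
    rw [Bool.not_eq_true', ← Bool.not_eq_true, orRun_bit] at h8
    by_contra hne
    apply h8
    refine ⟨k, by omega, ?_⟩
    rw [dif_bit]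
    have e1 : V2 (N - 2 * p + k) =
        (cat 15 g2 [V1 (t - 2), V1 (t - 2 + 1), V1 (t - 2 + 2)]).testBit (44 - 2 * p + k) := by
      rw [← um_three g2_lt (t - 2) (by omega)]
      show V2 _ = V2 _
      congr 1
      omega
    have e2 : V2 (N - 2 * p + k + p) =
        (cat 15 g2 [V1 (t - 2), V1 (t - 2 + 1), V1 (t - 2 + 2)]).testBit (44 - 2 * p + k + p) := by
      rw [← um_three g2_lt (t - 2) (by omega)]
      show V2 _ = V2 _
      congr 1
      omega
    rw [← e1, ← e2]
    exact hne

end Pool.Agent.W937.FB
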